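import Pool.Agent.R141.TB.Kaz

namespace Pool.Agent.R141.TB

open Finset

theorem choose_prime_dvd (p n r k : ℕ) (hpp : p.Prime) (hr : p ^ r ∣ n) (hk : ¬ p ∣ k) (hn : 0 < n) :
    p ^ (r + 1) ∣ (p * n).choose k := by
  rcases Nat.eq_zero_or_pos k with h | h
  · rw [h] at hk; exact absurd (dvd_zero p) hk
  · have h1 := Nat.add_one_mul_choose_eq (p * n - 1) (k - 1)
    have hpn : 0 < p * n := Nat.mul_pos hpp.pos hn
    rw [show p * n - 1 + 1 = p * n by omega, show k - 1 + 1 = k by omega] at h1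
    have h2 : p ^ (r + 1) ∣ (p * n).choose k * k := by
      rw [← h1, pow_succ, mul_comm (p ^ r) p]
      exact Dvd.dvd.mul_right (Nat.mul_dvd_mul_left p hr) _
    have hcop : Nat.Coprime (p ^ (r + 1)) k := Nat.Coprime.pow_left _ ((hpp.coprime_iff_not_dvd).2 hk)
    exact hcop.dvd_of_dvd_mul_right h2

theorem choose_dvd_of (p n r s j : ℕ) (hpp : p.Prime) (hr : p ^ r ∣ n) (hs : s ≤ r)
    (hj : p ^ s ∣ j) (hj2 : ¬ p ^ (s + 1) ∣ j) (hjn : j ≤ n) :
    p ^ (r - s) ∣ n.choose j := by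
  rcases Nat.eq_zero_or_pos j with h | h
  · rw [h] at hj2; exact absurd (dvd_zero _) hj2
  · have h1 := Nat.add_one_mul_choose_eq (n - 1) (j - 1)
    rw [show n - 1 + 1 = n by omega, show j - 1 + 1 = j by omega] at h1
    obtain ⟨j', hj'⟩ := hj
    have hj'p : ¬ p ∣ j' := by
      intro h2
      apply hj2
      rw [hj', pow_succ]
      exact Nat.mul_dvd_mul_left _ h2
    have h2 : p ^ r ∣ n.choose j * j := by
      rw [← h1]
      exact Dvd.dvd.mul_right hr _
    have h2' : n.choose j * j = p ^ s * (n.choose j * j') := by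
      have h5 : n.choose j * j = n.choose j * (p ^ s * j') := congrArg (fun x => n.choose j * x) hj'
      rw [h5]
      ring
    rw [h2', show p ^ r = p ^ s * p ^ (r - s) by rw [← pow_add]; congr 1; omega] at h2
    have h3 := Nat.dvd_of_mul_dvd_mul_left (pow_pos hpp.pos s) h2
    have hcop : Nat.Coprime (p ^ (r - s)) j' := Nat.Coprime.pow_left _ ((hpp.coprime_iff_not_dvd).2 hj'p)
    exact hcop.dvd_of_dvd_mul_right h3

theorem cube_congr (p n r j : ℕ) [Fact p.Prime] (hp : 3 < p) (hr : p ^ r ∣ n) (hjn : j ≤ n) :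
    (p : ℤ) ^ (3 + 3 * r) ∣ ((p * n).choose (p * j) : ℤ) ^ 3 - (n.choose j : ℤ) ^ 3 := by
  have hpp : p.Prime := Fact.out
  -- choose s
  have hex : ∃ s, s ≤ r ∧ p ^ s ∣ j ∧ p ^ (r - s) ∣ n.choose j := by
    by_cases h : p ^ r ∣ j
    · exact ⟨r, le_rfl, h, by simp⟩
    · classical
      have hex : ∃ s, ¬ p ^ s ∣ j := ⟨r, h⟩
      set s0 := Nat.find hex with hs0
      have h1 : ¬ p ^ s0 ∣ j := Nat.find_spec hex
      have h2 : s0 ≠ 0 := by
        intro h0
        rw [h0] at h1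
        simp at h1
      have h3 : s0 ≤ r := Nat.find_min' hex h
      have h4 : p ^ (s0 - 1) ∣ j := by
        have := Nat.find_min hex (m := s0 - 1) (by omega)
        simpa using this
      refine ⟨s0 - 1, by omega, h4, ?_⟩
      apply choose_dvd_of p n r (s0 - 1) j hpp hr (by omega) h4 _ hjn
      rw [show s0 - 1 + 1 = s0 by omega]
      exact h1
  obtain ⟨s, hsr, hsj, hsc⟩ := hex
  set m := n - j with hm
  have hsn : p ^ s ∣ n := (pow_dvd_pow p hsr).trans hr
  have hsm : p ^ s ∣ m := Nat.dvd_sub hsn hsj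
  have hmain := prod_congr_pow p s m j hp hsj hsm
  have hid := choose_prod p m j hpp.pos
  have e1 : p * m + p * j = p * n := by rw [← Nat.mul_add, hm, Nat.sub_add_cancel hjn]
  have e2 : m + j = n := by rw [hm, Nat.sub_add_cancel hjn]
  rw [e1, e2] at hid
  set A : ℤ := ∏ i ∈ I p (p * j), (i : ℤ) with hA
  set B : ℤ := ∏ i ∈ I p (p * j), ((p : ℤ) * m + i) with hB
  have hidZ : ((p * n).choose (p * j) : ℤ) * A = (n.choose j : ℤ) * B := by
    rw [hA, hB]
    have h := congrArg (Nat.cast (R := ℤ)) hid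
    push_cast at h
    exact h
  have hAcop : IsCoprime ((p : ℤ) ^ (3 + 3 * r)) (A ^ 3) := by
    apply IsCoprime.pow
    rw [Prime.coprime_iff_not_dvd (Nat.prime_iff_prime_int.1 hpp), hA,
      Prime.dvd_finsetProd_iff (Nat.prime_iff_prime_int.1 hpp)]
    rintro ⟨i, hi, h4⟩
    simp only [I, mem_filter] at hi
    exact hi.2 (Int.natCast_dvd_natCast.1 h4)
  have h5 : A ^ 3 * (((p * n).choose (p * j) : ℤ) ^ 3 - (n.choose j : ℤ) ^ 3) =
      (n.choose j : ℤ) ^ 3 * (B ^ 3 - A ^ 3) := by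
    calc A ^ 3 * (((p * n).choose (p * j) : ℤ) ^ 3 - (n.choose j : ℤ) ^ 3)
        = (((p * n).choose (p * j) : ℤ) * A) ^ 3 - (n.choose j : ℤ) ^ 3 * A ^ 3 := by ring
      _ = _ := by rw [hidZ]; ring
  have h6 : (p : ℤ) ^ (3 + 3 * r) ∣ (n.choose j : ℤ) ^ 3 * (B ^ 3 - A ^ 3) := by
    have h7 : (p : ℤ) ^ (3 * (r - s)) ∣ (n.choose j : ℤ) ^ 3 := by
      rw [mul_comm 3, pow_mul]
      apply pow_dvd_pow_of_dvd
      exact_mod_cast hsc
    have h8 : (p : ℤ) ^ (3 + 3 * s) ∣ B ^ 3 - A ^ 3 := by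
      have : B ^ 3 - A ^ 3 = (B - A) * (B ^ 2 + B * A + A ^ 2) := by ring
      rw [this]
      exact Dvd.dvd.mul_right hmain _
    have h9 := mul_dvd_mul h7 h8
    rw [← pow_add, show 3 * (r - s) + (3 + 3 * s) = 3 + 3 * r by omega] at h9
    exact h9
  rw [← h5] at h6
  exact hAcop.dvd_of_dvd_mul_left h6

theorem main (p n r : ℕ) (hpp : p.Prime) (hp : 3 < p) (hn : 0 < n) (hr : p ^ r ∣ n) :
    (p : ℤ) ^ (3 + 3 * r) ∣ (a (p * n) : ℤ) - a n := by
  have : Fact p.Prime := ⟨hpp⟩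
  have h1 := mac (p * n)
  have h2 := mac n
  have hp6 : (p : ℤ) % 6 = 1 ∨ (p : ℤ) % 6 = 5 := by
    have h2' : ¬ 2 ∣ p := by
      intro h
      have := (Nat.prime_dvd_prime_iff_eq Nat.prime_two hpp).1 h
      omega
    have h3' : ¬ 3 ∣ p := by
      intro h
      have := (Nat.prime_dvd_prime_iff_eq Nat.prime_three hpp).1 h
      omega
    omega
  have hsplit : ∑ k ∈ range (p * n + 1), ((p * n).choose k : ℤ) ^ 3 * t (2 * k - ((p * n : ℕ) : ℤ)) =
      ∑ j ∈ range (n + 1), ((p * n).choose (p * j) : ℤ) ^ 3 * t (2 * j - n) +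
      ∑ k ∈ (range (p * n + 1)).filter (fun k => ¬ p ∣ k), ((p * n).choose k : ℤ) ^ 3 * t (2 * k - ((p * n : ℕ) : ℤ)) := by
    rw [← Finset.sum_filter_add_sum_filter_not (range (p * n + 1)) (fun k => p ∣ k)]
    congr 1
    have himg : (range (p * n + 1)).filter (fun k => p ∣ k) = (range (n + 1)).image (fun j => p * j) := by
      ext x
      simp only [mem_filter, mem_range, mem_image]
      constructor
      · rintro ⟨h1, y, rfl⟩
        refine ⟨y, ?_, rfl⟩
        have : p * y ≤ p * n := by omega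
        have := Nat.le_of_mul_le_mul_left this hpp.pos
        omega
      · rintro ⟨y, h1, rfl⟩
        refine ⟨?_, dvd_mul_right _ _⟩
        have : p * y ≤ p * n := Nat.mul_le_mul_left p (by omega)
        omega
    rw [himg, Finset.sum_image (fun x _ y _ h => Nat.eq_of_mul_eq_mul_left hpp.pos h)]
    apply Finset.sum_congr rfl
    intro j _
    have : (2 * ((p * j : ℕ) : ℤ) - ((p * n : ℕ) : ℤ)) = (p : ℤ) * (2 * j - n) := by
      push_cast
      ring
    rw [this, t_mul _ hp6]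
  have hcop : IsCoprime ((p : ℤ) ^ (3 + 3 * r)) 2 := by
    apply IsCoprime.pow_left
    rw [Prime.coprime_iff_not_dvd (Nat.prime_iff_prime_int.1 hpp)]
    intro h
    have := Int.le_of_dvd (by norm_num) h
    omega
  apply hcop.dvd_of_dvd_mul_left
  have h3 : (2 : ℤ) * ((a (p * n) : ℤ) - a n) =
      ∑ j ∈ range (n + 1), (((p * n).choose (p * j) : ℤ) ^ 3 - (n.choose j : ℤ) ^ 3) * t (2 * j - n) +
      ∑ k ∈ (range (p * n + 1)).filter (fun k => ¬ p ∣ k), ((p * n).choose k : ℤ) ^ 3 * t (2 * k - ((p * n : ℕ) : ℤ)) := by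
    rw [mul_sub, ← h1, ← h2, hsplit]
    simp only [sub_mul, Finset.sum_sub_distrib]
    ring
  rw [h3]
  apply dvd_add
  · apply Finset.dvd_sum
    intro j hj
    rw [mem_range] at hj
    exact Dvd.dvd.mul_right (cube_congr p n r j hp hr (by omega)) _
  · apply Finset.dvd_sum
    intro k hk
    rw [mem_filter] at hk
    apply Dvd.dvd.mul_right
    have h4 := choose_prime_dvd p n r k hpp hr hk.2 hn
    have h5 : ((p : ℤ) ^ (r + 1)) ^ 3 ∣ ((p * n).choose k : ℤ) ^ 3 := by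
      apply pow_dvd_pow_of_dvd
      exact_mod_cast h4
    rw [← pow_mul, show (r + 1) * 3 = 3 + 3 * r by ring] at h5
    exact h5

end Pool.Agent.R141.TB
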