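import Pool.Agent.R141.TB.Mac

/-! A congruence of Jacobsthal-Kazandzidis type. -/

namespace Pool.Agent.R141.TB

open Finset

/-- the indices `1 ≤ i ≤ K` prime to `p` -/
def I (p K : ℕ) : Finset ℕ := (Icc 1 K).filter (fun i => ¬ p ∣ i)

theorem prod_split (p m j : ℕ) (hp : 0 < p) :
    ∏ i ∈ Icc 1 (p * j), (p * m + i) = (p ^ j * ∏ i ∈ Icc 1 j, (m + i)) * ∏ i ∈ I p (p * j), (p * m + i) := by
  unfold I
  rw [← Finset.prod_filter_mul_prod_filter_not (Icc 1 (p * j)) (fun i => p ∣ i)]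
  congr 1
  have h1 : (Icc 1 (p * j)).filter (fun i => p ∣ i) = (Icc 1 j).image (fun i => p * i) := by
    ext x
    simp only [mem_filter, mem_Icc, mem_image]
    constructor
    · rintro ⟨⟨h1, h2⟩, y, rfl⟩
      refine ⟨y, ⟨?_, ?_⟩, rfl⟩
      · rcases Nat.eq_zero_or_pos y with h | h
        · rw [h] at h1; simp at h1
        · exact h
      · exact Nat.le_of_mul_le_mul_left h2 hp
    · rintro ⟨y, ⟨h1, h2⟩, rfl⟩
      exact ⟨⟨Nat.mul_pos hp h1, Nat.mul_le_mul_left p h2⟩, dvd_mul_right _ _⟩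
  rw [h1, Finset.prod_image (fun x _ y _ h => Nat.eq_of_mul_eq_mul_left hp h)]
  have h2 : ∀ i ∈ Icc 1 j, p * m + p * i = p * (m + i) := fun i _ => by ring
  rw [Finset.prod_congr rfl h2, Finset.prod_mul_distrib, Finset.prod_const, Nat.card_Icc]
  simp

theorem prod_choose (M K : ℕ) : ∏ i ∈ Icc 1 K, (M + i) = K.factorial * (M + K).choose K := by
  rw [← Nat.ascFactorial_eq_factorial_mul_choose, Nat.ascFactorial_eq_prod_range]
  rw [Finset.prod_bij (fun i _ => i - 1)]
  · intro i hi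
    rw [mem_Icc] at hi
    rw [mem_range]
    omega
  · intro i hi i' hi' h
    rw [mem_Icc] at hi hi'
    omega
  · intro b hb
    rw [mem_range] at hb
    exact ⟨b + 1, by rw [mem_Icc]; omega, by simp⟩
  · intro i hi
    rw [mem_Icc] at hi
    omega

theorem choose_prod (p m j : ℕ) (hp : 0 < p) :
    (p * m + p * j).choose (p * j) * ∏ i ∈ I p (p * j), i =
      (m + j).choose j * ∏ i ∈ I p (p * j), (p * m + i) := by
  have h1 := prod_split p m j hp
  have h2 := prod_split p 0 j hp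
  rw [prod_choose, prod_choose] at h1
  simp only [mul_zero, zero_add] at h2
  have h3 : ∏ i ∈ Icc 1 (p * j), i = (p * j).factorial := by
    have := prod_choose 0 (p * j)
    simpa using this
  have h4 : ∏ i ∈ Icc 1 j, i = j.factorial := by
    have := prod_choose 0 j
    simpa using this
  rw [h3, h4] at h2
  rw [h2] at h1
  have hpos : 0 < p ^ j * j.factorial := Nat.mul_pos (pow_pos hp j) (Nat.factorial_pos j)
  apply Nat.eq_of_mul_eq_mul_left hpos
  calc p ^ j * j.factorial * ((p * m + p * j).choose (p * j) * ∏ i ∈ I p (p * j), i)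
      = p ^ j * j.factorial * (∏ i ∈ I p (p * j), i) * (p * m + p * j).choose (p * j) := by ring
    _ = p ^ j * (j.factorial * (m + j).choose j) * ∏ i ∈ I p (p * j), (p * m + i) := h1
    _ = _ := by ring

/-- expansion to first order -/
theorem prod_expand {ι : Type*} [DecidableEq ι] (s : Finset ι) (c : ι → ℤ) (x : ℤ) :
    ∃ q : ℤ, ∏ i ∈ s, (c i + x) = ∏ i ∈ s, c i + x * ∑ i ∈ s, ∏ j ∈ s.erase i, c j + x ^ 2 * q := by
  induction s using Finset.induction_on with
  | empty => exact ⟨0, by simp⟩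
  | insert a s ha ih =>
    obtain ⟨q, hq⟩ := ih
    refine ⟨(c a + x) * q + ∑ i ∈ s, ∏ j ∈ s.erase i, c j, ?_⟩
    rw [prod_insert ha, prod_insert ha, hq, sum_insert ha, erase_insert ha]
    have h1 : ∑ i ∈ s, ∏ j ∈ (insert a s).erase i, c j = c a * ∑ i ∈ s, ∏ j ∈ s.erase i, c j := by
      rw [Finset.mul_sum]
      apply Finset.sum_congr rfl
      intro i hi
      have hia : i ≠ a := fun h => ha (by rw [← h]; exact hi)
      rw [Finset.erase_insert_of_ne hia.symm, prod_insert]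
      intro h
      exact ha (mem_of_mem_erase h)
    rw [h1]
    ring

/-- sum over a complete set of residues of the inverse squares of the units -/
theorem sum_inv_sq (N : ℕ) [NeZero N] (h2 : Nat.Coprime 2 N) (h3 : Nat.Coprime 3 N) :
    ∑ x : (ZMod N)ˣ, ((x⁻¹ : (ZMod N)ˣ) : ZMod N) ^ 2 = 0 := by
  set S := ∑ x : (ZMod N)ˣ, ((x⁻¹ : (ZMod N)ˣ) : ZMod N) ^ 2 with hS
  set u := ZMod.unitOfCoprime 2 h2 with hu
  have hu2 : (u : ZMod N) = 2 := by
    rw [hu, ZMod.coe_unitOfCoprime]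
    norm_num
  have h4 : S = ∑ x : (ZMod N)ˣ, (((u * x)⁻¹ : (ZMod N)ˣ) : ZMod N) ^ 2 := by
    rw [hS]
    exact (Equiv.sum_comp (Equiv.mulLeft u) (fun x : (ZMod N)ˣ => ((x⁻¹ : (ZMod N)ˣ) : ZMod N) ^ 2)).symm
  have h5 : (2 : ZMod N) ^ 2 * S = S := by
    conv_lhs => rw [h4]
    rw [Finset.mul_sum, hS]
    apply Finset.sum_congr rfl
    intro x _
    rw [mul_inv, Units.val_mul, mul_pow, ← mul_assoc, ← hu2, ← mul_pow, Units.mul_inv, one_pow, one_mul]
  have h6 : (3 : ZMod N) * S = 0 := by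
    linear_combination h5
  have h7 : IsUnit (3 : ZMod N) := by
    have := (ZMod.unitOfCoprime 3 h3).isUnit
    rw [ZMod.coe_unitOfCoprime] at this
    exact_mod_cast this
  exact (IsUnit.mul_right_eq_zero h7).1 h6

theorem sum_block (N : ℕ) [NeZero N] {R : Type*} [AddCommMonoid R] (F : ZMod N → R) (t : ℕ) :
    ∑ i ∈ range (N * t), F (i : ZMod N) = t • ∑ x : ZMod N, F x := by
  have h1 : ∑ i ∈ range N, F (i : ZMod N) = ∑ x : ZMod N, F x := by
    refine Finset.sum_nbij' (fun i : ℕ => (i : ZMod N)) (fun x : ZMod N => x.val) ?_ ?_ ?_ ?_ ?_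
    · intro i _; exact mem_univ _
    · intro x _; exact mem_range.2 (ZMod.val_lt x)
    · intro i hi; exact ZMod.val_cast_of_lt (mem_range.1 hi)
    · intro x _; exact ZMod.natCast_zmod_val x
    · intro i _; rfl
  induction t with
  | zero => simp
  | succ t ih =>
    rw [Nat.mul_succ, Finset.sum_range_add, ih, succ_nsmul, ← h1]
    congr 1
    apply Finset.sum_congr rfl
    intro i _
    push_cast
    simp

theorem I_eq (p K : ℕ) (hK : p ∣ K) : I p K = (range K).filter (fun i => ¬ p ∣ i) := by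
  ext i
  simp only [I, mem_filter, mem_Icc, mem_range]
  constructor
  · rintro ⟨⟨h1, h2⟩, h3⟩
    refine ⟨lt_of_le_of_ne h2 ?_, h3⟩
    rintro rfl
    exact h3 hK
  · rintro ⟨h1, h3⟩
    refine ⟨⟨?_, h1.le⟩, h3⟩
    rcases Nat.eq_zero_or_pos i with h | h
    · rw [h] at h3; exact absurd (dvd_zero p) h3
    · exact h

theorem sum_I (p s t N : ℕ) [NeZero N] (hN : N = p ^ (s + 1)) (hpp : p.Prime) (hp : 3 < p)
    (F : ZMod N → ZMod N) (hF : ∀ x, IsUnit x → x ^ 2 * F x = 1) :
    ∑ i ∈ I p (N * t), F (i : ZMod N) = 0 := by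
  classical
  have h2 : Nat.Coprime 2 N := by
    rw [hN]
    apply Nat.Coprime.pow_right
    rw [Nat.coprime_primes Nat.prime_two hpp]
    omega
  have h3 : Nat.Coprime 3 N := by
    rw [hN]
    apply Nat.Coprime.pow_right
    rw [Nat.coprime_primes Nat.prime_three hpp]
    omega
  set F' : ZMod N → ZMod N := fun x => if IsUnit x then F x else 0 with hF'
  have hunit : ∀ i : ℕ, IsUnit (i : ZMod N) ↔ ¬ p ∣ i := by
    intro i
    rw [ZMod.isUnit_iff_coprime, hN, Nat.coprime_pow_right_iff (by omega), Nat.coprime_comm,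
      hpp.coprime_iff_not_dvd]
  have hdiv : p ∣ N * t := by
    rw [hN, pow_succ]
    exact Dvd.dvd.mul_right (dvd_mul_left _ _) _
  have e1 : ∑ i ∈ I p (N * t), F (i : ZMod N) = ∑ i ∈ range (N * t), F' (i : ZMod N) := by
    rw [I_eq p _ hdiv, Finset.sum_filter]
    apply Finset.sum_congr rfl
    intro i _
    simp only [hF', hunit]
  rw [e1, sum_block]
  have e2 : ∑ x : ZMod N, F' x = ∑ x : (ZMod N)ˣ, ((x⁻¹ : (ZMod N)ˣ) : ZMod N) ^ 2 := by
    simp only [hF']
    rw [← Finset.sum_filter]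
    symm
    apply Finset.sum_bij (fun (x : (ZMod N)ˣ) _ => (x : ZMod N))
    · intro x _
      simp
    · intro x _ y _ hxy
      exact Units.ext hxy
    · intro b hb
      simp only [mem_filter, mem_univ, true_and] at hb
      exact ⟨hb.unit, mem_univ _, hb.unit_spec⟩
    · intro x _
      have h := hF x x.isUnit
      have h' : ((x⁻¹ : (ZMod N)ˣ) : ZMod N) ^ 2 * ((x : ZMod N) ^ 2 * F x) = ((x⁻¹ : (ZMod N)ˣ) : ZMod N) ^ 2 := by
        rw [h, mul_one]
      rw [← mul_assoc, ← mul_pow, Units.inv_mul, one_pow, one_mul] at h'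
      exact h'.symm
  rw [e2, sum_inv_sq N h2 h3, smul_zero]

theorem refl_prod (p K : ℕ) (hK : p ∣ K) (f : ℕ → ℤ) :
    ∏ i ∈ I p K, f (K - i) = ∏ i ∈ I p K, f i := by
  apply Finset.prod_nbij' (fun i => K - i) (fun i => K - i)
  · intro i hi
    simp only [I, mem_filter, mem_Icc] at hi ⊢
    have h1 : i ≠ K := by rintro rfl; exact hi.2 hK
    refine ⟨by omega, fun h => hi.2 ?_⟩
    have h2 := Nat.dvd_sub hK h
    rwa [show K - (K - i) = i by omega] at h2
  · intro i hi
    simp only [I, mem_filter, mem_Icc] at hi ⊢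
    have h1 : i ≠ K := by rintro rfl; exact hi.2 hK
    refine ⟨by omega, fun h => hi.2 ?_⟩
    have h2 := Nat.dvd_sub hK h
    rwa [show K - (K - i) = i by omega] at h2
  · intro i hi
    simp only [I, mem_filter, mem_Icc] at hi
    omega
  · intro i hi
    simp only [I, mem_filter, mem_Icc] at hi
    omega
  · intro i _
    rfl

/-- `∏ (pm + i) ≡ ∏ i` -/
theorem prod_congr_pow (p s m j : ℕ) [Fact p.Prime] (hp : 3 < p) (hj : p ^ s ∣ j) (hm : p ^ s ∣ m) :
    (p : ℤ) ^ (3 + 3 * s) ∣ ∏ i ∈ I p (p * j), ((p : ℤ) * m + i) - ∏ i ∈ I p (p * j), (i : ℤ) := by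
  classical
  have hpp : p.Prime := Fact.out
  set B := ∏ i ∈ I p (p * j), ((p : ℤ) * m + i) with hB
  set A := ∏ i ∈ I p (p * j), (i : ℤ) with hA
  obtain ⟨j', hj'⟩ := hj
  have hK : p ∣ p * j := dvd_mul_right _ _
  set c : ℕ → ℤ := fun i => (i : ℤ) * ((p * j : ℕ) - i) with hc
  set x : ℤ := (p : ℤ) ^ 2 * m * (m + j) with hx
  have hsub : ∀ i ∈ I p (p * j), ((p * j - i : ℕ) : ℤ) = ((p * j : ℕ) : ℤ) - i := by
    intro i hi
    simp only [I, mem_filter, mem_Icc] at hi
    exact Nat.cast_sub hi.1.2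
  have hB2 : B * B = ∏ i ∈ I p (p * j), (c i + x) := by
    have h1 := refl_prod p (p * j) hK (fun i => (p : ℤ) * m + i)
    rw [← hB] at h1
    have h2 : B * B = (∏ i ∈ I p (p * j), ((p : ℤ) * m + ((p * j - i : ℕ) : ℤ))) * ∏ i ∈ I p (p * j), ((p : ℤ) * m + i) := by
      rw [h1, ← hB]
    rw [h2, ← Finset.prod_mul_distrib]
    apply Finset.prod_congr rfl
    intro i hi
    rw [hsub i hi, hc, hx]
    push_cast
    ring
  have hA2 : A * A = ∏ i ∈ I p (p * j), c i := by
    have h1 := refl_prod p (p * j) hK (fun i => (i : ℤ))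
    rw [← hA] at h1
    have h2 : A * A = (∏ i ∈ I p (p * j), ((p * j - i : ℕ) : ℤ)) * ∏ i ∈ I p (p * j), (i : ℤ) := by
      rw [h1, ← hA]
    rw [h2, ← Finset.prod_mul_distrib]
    apply Finset.prod_congr rfl
    intro i hi
    rw [hsub i hi, hc]
    ring
  obtain ⟨q, hq⟩ := prod_expand (I p (p * j)) c x
  -- the first order coefficient
  set e := ∑ i ∈ I p (p * j), ∏ k ∈ (I p (p * j)).erase i, c k with he
  set N := p ^ (s + 1) with hN
  haveI : NeZero N := ⟨(pow_pos hpp.pos _).ne'⟩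
  have hpj : p * j = N * j' := by rw [hj', hN, pow_succ]; ring
  have heN : (N : ℤ) ∣ e := by
    rw [← ZMod.intCast_zmod_eq_zero_iff_dvd e N] 
    have hcz : ∀ i : ℕ, ((c i : ℤ) : ZMod N) = -(i : ZMod N) ^ 2 := by
      intro i
      rw [hc]
      push_cast
      have : ((p : ZMod N) * (j : ZMod N)) = 0 := by
        have : ((p * j : ℕ) : ZMod N) = 0 := by rw [hpj]; simp
        exact_mod_cast this
      rw [this]
      ring
    have hunit : ∀ i : ℕ, i ∈ I p (p * j) → IsUnit (i : ZMod N) := by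
      intro i hi
      simp only [I, mem_filter] at hi
      rw [ZMod.isUnit_iff_coprime, hN, Nat.coprime_pow_right_iff (by omega), Nat.coprime_comm,
        hpp.coprime_iff_not_dvd]
      exact hi.2
    set F : ZMod N → ZMod N := fun x => if h : IsUnit x then ((h.unit⁻¹ : (ZMod N)ˣ) : ZMod N) ^ 2 else 0 with hF
    have hFu : ∀ x : ZMod N, IsUnit x → x ^ 2 * F x = 1 := by
      intro x hxu
      simp only [hF]
      rw [dif_pos hxu, ← mul_pow]
      have : x * ((hxu.unit⁻¹ : (ZMod N)ˣ) : ZMod N) = 1 := hxu.mul_val_inv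
      rw [this, one_pow]
    have hsum := sum_I p s j' N hN hpp hp F hFu
    rw [← hpj] at hsum
    have h1 : ∀ i ∈ I p (p * j), ((∏ k ∈ (I p (p * j)).erase i, c k : ℤ) : ZMod N) =
        -((∏ k ∈ I p (p * j), c k : ℤ) : ZMod N) * F (i : ZMod N) := by
      intro i hi
      rw [← Finset.mul_prod_erase _ _ hi]
      push_cast
      rw [hcz i]
      have := hFu (i : ZMod N) (hunit i hi)
      linear_combination (-(∏ k ∈ (I p (p * j)).erase i, ((c k : ℤ) : ZMod N))) * this
    rw [he, Int.cast_sum, Finset.sum_congr rfl h1, ← Finset.mul_sum, hsum, mul_zero]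
  have hsq : (p : ℤ) ^ (3 + 3 * s) ∣ B * B - A * A := by
    rw [hB2, hA2, hq]
    have hxd : (p : ℤ) ^ (2 + 2 * s) ∣ x := by
      obtain ⟨m', hm'⟩ := hm
      refine ⟨m' * (m' + j'), ?_⟩
      rw [hx, hm', hj']
      push_cast
      ring
    obtain ⟨x', hx'⟩ := hxd
    obtain ⟨e', he'⟩ := heN
    refine ⟨x' * e' + p ^ (1 + s) * x' ^ 2 * q, ?_⟩
    rw [he', hx', hN]
    push_cast
    ring
  have hfac : B * B - A * A = (B - A) * (B + A) := by ring
  rw [hfac] at hsq
  have hcop : IsCoprime ((p : ℤ) ^ (3 + 3 * s)) (B + A) := by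
    apply IsCoprime.pow_left
    rw [Prime.coprime_iff_not_dvd (Nat.prime_iff_prime_int.1 hpp)]
    intro hdvd
    have h1 : (p : ℤ) ∣ B - A := by
      have h2 : B ≡ A [ZMOD p] := by
        rw [hB, hA]
        apply Int.ModEq.prod
        intro i _
        have : (p : ℤ) * m + i ≡ 0 + i [ZMOD p] := Int.ModEq.add_right _ ((Int.modEq_zero_iff_dvd).2 (dvd_mul_right _ _))
        simp
      exact Int.modEq_iff_dvd.1 h2.symm
    have h2 : (p : ℤ) ∣ 2 * A := by
      have := dvd_sub hdvd h1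
      have h3 : B + A - (B - A) = 2 * A := by ring
      rwa [h3] at this
    rcases (Nat.prime_iff_prime_int.1 hpp).dvd_or_dvd h2 with h3 | h3
    · have := Int.le_of_dvd (by norm_num) h3
      omega
    · rw [hA, Prime.dvd_finsetProd_iff (Nat.prime_iff_prime_int.1 hpp)] at h3
      obtain ⟨i, hi, h4⟩ := h3
      simp only [I, mem_filter] at hi
      exact hi.2 (Int.natCast_dvd_natCast.1 h4)
  exact hcop.dvd_of_dvd_mul_right hsq

end Pool.Agent.R141.TB
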