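import Mathlib

/-! MacMahon's identity at the primitive sixth roots of unity. -/

namespace Pool.Agent.R141.TB

open Finset

theorem vand (m n k : ℕ) : (m + n).choose k = ∑ i ∈ range (k + 1), m.choose i * n.choose (k - i) := by
  rw [Nat.add_choose_eq, Finset.Nat.sum_antidiagonal_eq_sum_range_succ_mk]

theorem v4 (k l : ℕ) : ∑ i ∈ range (k + 1), k.choose i * l.choose i = (k + l).choose k := by
  rw [add_comm k l, vand l k k]
  apply Finset.sum_congr rfl
  intro i hi
  rw [mem_range] at hi
  rw [Nat.choose_symm (by omega : i ≤ k), mul_comm]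

theorem v1 (N j k : ℕ) (hj : j ≤ k) :
    (N + j).choose j = ∑ i ∈ range (k + 1), j.choose i * N.choose i := by
  rw [add_comm, ← v4 j N]
  apply Finset.sum_subset
  · intro x hx
    rw [mem_range] at hx ⊢
    omega
  · intro x _ hx
    rw [mem_range] at hx
    rw [Nat.choose_eq_zero_of_lt (by omega), zero_mul]

theorem v3 (N i k : ℕ) (h : i + k ≤ N) :
    N.choose i * (N - i).choose k = N.choose k * (N - k).choose i := by
  have h1 := Nat.choose_mul (n := N) (k := i + k) (s := i) (by omega)
  have h2 := Nat.choose_mul (n := N) (k := i + k) (s := k) (by omega)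
  rw [show i + k - i = k by omega] at h1
  rw [show i + k - k = i by omega] at h2
  rw [← h1, ← h2]
  congr 1
  exact Nat.choose_symm_add

theorem v2 (k l i : ℕ) (hi : i ≤ k) :
    ∑ j ∈ range (k + 1), k.choose j * j.choose i * l.choose j = k.choose i * (l + (k - i)).choose k := by
  rw [vand l (k - i) k, Finset.mul_sum]
  apply Finset.sum_congr rfl
  intro j hj
  rw [mem_range] at hj
  by_cases hij : i ≤ j
  · rw [Nat.choose_mul hij]
    have : (k - i).choose (j - i) = (k - i).choose (k - j) := by
      rw [← Nat.choose_symm (by omega : j - i ≤ k - i)]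
      congr 1
      omega
    rw [this]
    ring
  · rw [Nat.choose_eq_zero_of_lt (by omega : j < i), Nat.choose_eq_zero_of_lt (by omega : k - i < k - j)]
    ring

theorem nan (k l : ℕ) :
    ∑ j ∈ range (k + 1), k.choose j * l.choose j * (k + l + j).choose j = (k + l).choose k ^ 2 := by
  have h1 : ∀ j ∈ range (k + 1), k.choose j * l.choose j * (k + l + j).choose j =
      ∑ i ∈ range (k + 1), (k + l).choose i * (k.choose j * j.choose i * l.choose j) := by
    intro j hj
    rw [mem_range] at hj
    rw [v1 (k + l) j k (by omega), Finset.mul_sum]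
    apply Finset.sum_congr rfl
    intro i _
    ring
  rw [Finset.sum_congr rfl h1, Finset.sum_comm]
  have h2 : ∀ i ∈ range (k + 1), ∑ j ∈ range (k + 1), (k + l).choose i * (k.choose j * j.choose i * l.choose j) =
      (k + l).choose k * (k.choose i * l.choose i) := by
    intro i hi
    rw [mem_range] at hi
    rw [← Finset.mul_sum, v2 k l i (by omega)]
    by_cases hil : i ≤ l
    · have h3 := v3 (k + l) i k (by omega)
      rw [show k + l - i = l + (k - i) by omega, show k + l - k = l by omega] at h3
      calc (k + l).choose i * (k.choose i * (l + (k - i)).choose k)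
          = k.choose i * ((k + l).choose i * (l + (k - i)).choose k) := by ring
        _ = k.choose i * ((k + l).choose k * l.choose i) := by rw [h3]
        _ = _ := by ring
    · rw [Nat.choose_eq_zero_of_lt (by omega : l + (k - i) < k), Nat.choose_eq_zero_of_lt (by omega : l < i)]
      ring
  rw [Finset.sum_congr rfl h2, ← Finset.mul_sum, v4, sq]

/-- the summand of `a(n)` -/
def T (n j : ℕ) : ℕ := (n + j).choose j * n.choose j * (n - j).choose j

/-- `a(n) = ∑ C(n+j,j) C(n,j) C(n-j,j)` -/
def a (n : ℕ) : ℕ := ∑ j ∈ range (n + 1), (n + j).choose j * n.choose j * (n - j).choose j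

theorem T_term (n k j : ℕ) (hk : k ≤ n) (hj : j ≤ k) :
    T n j * (n - 2 * j).choose (k - j) = n.choose k * (k.choose j * (n - k).choose j * (n + j).choose j) := by
  unfold T
  by_cases h2 : j + j ≤ n
  · by_cases h3 : j ≤ n - k
    · have h4 := Nat.choose_mul (n := n) (k := k) (s := j) hj
      have h5 := v3 (n - j) j (k - j) (by omega)
      rw [show n - j - j = n - 2 * j by omega, show n - j - (k - j) = n - k by omega] at h5
      calc (n + j).choose j * n.choose j * (n - j).choose j * (n - 2 * j).choose (k - j)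
          = (n + j).choose j * n.choose j * ((n - j).choose j * (n - 2 * j).choose (k - j)) := by ring
        _ = (n + j).choose j * n.choose j * ((n - j).choose (k - j) * (n - k).choose j) := by rw [h5]
        _ = (n + j).choose j * (n.choose j * (n - j).choose (k - j)) * (n - k).choose j := by ring
        _ = (n + j).choose j * (n.choose k * k.choose j) * (n - k).choose j := by rw [h4]
        _ = _ := by ring
    · rw [Nat.choose_eq_zero_of_lt (by omega : n - 2 * j < k - j), Nat.choose_eq_zero_of_lt (by omega : n - k < j)]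
      ring
  · rw [Nat.choose_eq_zero_of_lt (by omega : n - j < j), Nat.choose_eq_zero_of_lt (by omega : n - k < j)]
    ring

theorem cube (n k : ℕ) (hk : k ≤ n) :
    n.choose k ^ 3 = ∑ j ∈ range (k + 1), T n j * (n - 2 * j).choose (k - j) := by
  have h := nan k (n - k)
  rw [show k + (n - k) = n by omega] at h
  rw [pow_succ, ← h, mul_comm, Finset.mul_sum]
  apply Finset.sum_congr rfl
  intro j hj
  rw [mem_range] at hj
  rw [T_term n k j hk (by omega)]

/-- `2 cos(π m / 3)` -/
def t (m : ℤ) : ℤ := if m % 6 = 0 then 2 else if m % 6 = 1 ∨ m % 6 = 5 then 1 else if m % 6 = 3 then -2 else -1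

theorem t_rec (m : ℤ) : t (m + 1) + t (m - 1) = t m := by
  unfold t
  have h : m % 6 = 0 ∨ m % 6 = 1 ∨ m % 6 = 2 ∨ m % 6 = 3 ∨ m % 6 = 4 ∨ m % 6 = 5 := by omega
  have e1 : (m + 1) % 6 = (m % 6 + 1) % 6 := by omega
  have e2 : (m - 1) % 6 = (m % 6 + 5) % 6 := by omega
  rw [e1, e2]
  rcases h with h | h | h | h | h | h <;> rw [h] <;> norm_num

theorem t_mul (p : ℤ) (hp : p % 6 = 1 ∨ p % 6 = 5) (m : ℤ) : t (p * m) = t m := by
  unfold t
  have h : m % 6 = 0 ∨ m % 6 = 1 ∨ m % 6 = 2 ∨ m % 6 = 3 ∨ m % 6 = 4 ∨ m % 6 = 5 := by omega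
  have e1 : (p * m) % 6 = ((p % 6) * (m % 6)) % 6 := Int.mul_emod p m 6
  rw [e1]
  rcases hp with hp | hp <;> rcases h with h | h | h | h | h | h <;> rw [hp, h] <;> norm_num

theorem t_sum (N : ℕ) : ∀ c : ℤ, ∑ k ∈ range (N + 1), (N.choose k : ℤ) * t (2 * k - N + c) = t c := by
  induction N with
  | zero => intro c; simp
  | succ N ih =>
    intro c
    rw [Finset.sum_range_succ']
    have h1 : ∑ k ∈ range (N + 1), ((N + 1).choose (k + 1) : ℤ) * t (2 * ((k + 1 : ℕ) : ℤ) - ((N + 1 : ℕ) : ℤ) + c) =
        ∑ k ∈ range (N + 1), (N.choose k : ℤ) * t (2 * k - N + (c + 1)) +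
        ∑ k ∈ range (N + 1), (N.choose (k + 1) : ℤ) * t (2 * ((k + 1 : ℕ) : ℤ) - N + (c - 1)) := by
      rw [← Finset.sum_add_distrib]
      apply Finset.sum_congr rfl
      intro k _
      rw [Nat.choose_succ_succ]
      push_cast
      have e1 : 2 * ((k : ℤ) + 1) - ((N : ℤ) + 1) + c = 2 * k - N + (c + 1) := by ring
      have e2 : 2 * ((k : ℤ) + 1) - N + (c - 1) = 2 * k - N + (c + 1) := by ring
      rw [e1, e2]
      ring
    rw [h1, ih, add_assoc]
    have h2 : ∑ k ∈ range (N + 1), (N.choose (k + 1) : ℤ) * t (2 * ((k + 1 : ℕ) : ℤ) - N + (c - 1)) +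
        ((N + 1).choose 0 : ℤ) * t (2 * ((0 : ℕ) : ℤ) - ((N + 1 : ℕ) : ℤ) + c) = t (c - 1) := by
      rw [← ih (c - 1)]
      have h3 : ∑ k ∈ range (N + 1), (N.choose k : ℤ) * t (2 * k - N + (c - 1)) =
          ∑ k ∈ range (N + 1 + 1), (N.choose k : ℤ) * t (2 * k - N + (c - 1)) := by
        rw [Finset.sum_range_succ (n := N + 1), Nat.choose_succ_self]
        simp
      rw [h3, Finset.sum_range_succ' (n := N + 1)]
      congr 1
      simp only [Nat.choose_zero_right, Nat.cast_one, one_mul]
      congr 1
      push_cast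
      ring
    rw [h2, t_rec]

theorem mac (n : ℕ) : ∑ k ∈ range (n + 1), (n.choose k : ℤ) ^ 3 * t (2 * k - n) = 2 * (a n : ℤ) := by
  have h1 : ∀ k ∈ range (n + 1), (n.choose k : ℤ) ^ 3 * t (2 * k - n) =
      ∑ j ∈ range (n + 1), if j ≤ k then (T n j : ℤ) * ((n - 2 * j).choose (k - j) : ℤ) * t (2 * k - n) else 0 := by
    intro k hk
    rw [mem_range] at hk
    have h := cube n k (by omega)
    have h' : (n.choose k : ℤ) ^ 3 = ∑ j ∈ range (k + 1), (T n j : ℤ) * ((n - 2 * j).choose (k - j) : ℤ) := by
      exact_mod_cast h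
    rw [h', Finset.sum_mul, ← Finset.sum_filter]
    apply Finset.sum_congr _ (fun _ _ => rfl)
    ext j
    simp only [mem_range, mem_filter]
    omega
  rw [Finset.sum_congr rfl h1, Finset.sum_comm]
  unfold a
  push_cast
  rw [Finset.mul_sum]
  apply Finset.sum_congr rfl
  intro j hj
  rw [mem_range] at hj
  rw [← Finset.sum_filter]
  by_cases h2 : 2 * j ≤ n
  · have h3 : ∑ k ∈ (range (n + 1)).filter (fun k => j ≤ k), (T n j : ℤ) * ((n - 2 * j).choose (k - j) : ℤ) * t (2 * k - n) =
        ∑ k ∈ range (n - 2 * j + 1), (T n j : ℤ) * (((n - 2 * j).choose k : ℤ) * t (2 * k - ((n - 2 * j : ℕ) : ℤ) + 0)) := by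
      symm
      apply Finset.sum_of_injOn (fun k => k + j)
      · intro x _ y _ hxy
        simpa using hxy
      · intro x hx
        simp only [coe_range, Set.mem_Iio] at hx
        simp only [coe_filter, mem_range, Set.mem_ofPred_eq]
        omega
      · intro k hk hk2
        simp only [mem_filter, mem_range] at hk
        simp only [coe_range, Set.mem_image, Set.mem_Iio, not_exists, not_and] at hk2
        have h4 : n - 2 * j < k - j := by
          by_contra hcon
          exact hk2 (k - j) (by omega) (by omega)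
        rw [Nat.choose_eq_zero_of_lt h4]
        simp
      · intro k hk
        rw [mem_range] at hk
        rw [show k + j - j = k by omega]
        have : (2 * (k : ℤ) - ((n - 2 * j : ℕ) : ℤ) + 0) = 2 * ((k + j : ℕ) : ℤ) - n := by
          push_cast [h2]
          ring
        rw [this]
        ring
    rw [h3, ← Finset.mul_sum, t_sum]
    unfold T t
    push_cast
    norm_num
    ring
  · have h3 : (n - j).choose j = 0 := Nat.choose_eq_zero_of_lt (by omega)
    rw [h3]
    apply (Finset.sum_eq_zero _).trans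
    · simp
    · intro k _
      unfold T
      rw [h3]
      simp

end Pool.Agent.R141.TB
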